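import Pool.Agent.P8H47.FP.Stm2

/-!
# Project FP, package INF: an automorphism of infinite order
-/

set_option autoImplicit false

namespace Pool.Agent.P8H56.FP

open Pool.Agent.P8H47.FP

section

variable {F K : Type} [Field F] [Field K] [Algebra F K]

lemma neg_ne (h2 : (2 : K) ≠ 0) {x : K} (hx : x ≠ 0) : -x ≠ x := by
  intro h
  have h1 : 2 * x = 0 := by
    have := congrArg (fun z => z + x) h
    simp only [neg_add_cancel] at this
    rw [two_mul]
    exact this.symm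
  rcases mul_eq_zero.1 h1 with h3 | h3
  · exact h2 h3
  · exact hx h3

lemma map_i {i : K} (hi : i ^ 2 = -1) (τ : K ≃ₐ[F] K) : τ i = i ∨ τ i = -i := by
  have h : (τ i) ^ 2 = i ^ 2 := by rw [← map_pow, hi, map_neg, map_one]
  exact sq_eq_sq_iff_eq_or_eq_neg.1 h

lemma invol (h2 : (2 : K) ≠ 0) (hsq : ∀ c : K, ∃ y, y ^ 2 = c) {i : K} (hi : i ^ 2 = -1)
    (τ : K ≃ₐ[F] K) (hτ : τ ^ 2 = 1) (hτ1 : τ ≠ 1) : τ i = -i := by
  rcases map_i hi τ with h | h
  · exfalso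
    have hττ : ∀ y, τ (τ y) = y := by
      intro y
      have h3 : (τ ^ 2) y = (1 : K ≃ₐ[F] K) y := by rw [hτ]
      rw [pow_two] at h3
      exact h3
    obtain ⟨y, hy⟩ : ∃ y, τ y ≠ y := by
      by_contra hcon
      push Not at hcon
      exact hτ1 (AlgEquiv.ext hcon)
    set x := y - τ y with hx
    have hx0 : x ≠ 0 := sub_ne_zero.2 (Ne.symm hy)
    have hτx : τ x = -x := by rw [hx, map_sub, hττ, neg_sub]
    obtain ⟨z, hz⟩ := hsq x
    have hz0 : z ≠ 0 := by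
      rintro rfl
      apply hx0
      rw [← hz]
      ring
    have h4 : (τ z) ^ 2 = (i * z) ^ 2 := by
      rw [← map_pow, hz, hτx, mul_pow, hi, hz]
      ring
    have h5 : τ (τ z) = -z := by
      rcases sq_eq_sq_iff_eq_or_eq_neg.1 h4 with h6 | h6
      · rw [h6, map_mul, h, h6, ← mul_assoc, ← pow_two, hi]
        ring
      · rw [h6, map_neg, map_mul, h, h6, mul_neg, neg_neg, ← mul_assoc, ← pow_two, hi]
        ring
    rw [hττ] at h5
    exact neg_ne h2 hz0 h5.symm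
  · exact h

end

theorem inf : S_INF := by
  intro F K _ _ _ h2 hsq t s σ ht ht0 hst hσs hNm
  by_contra hcon
  push Not at hcon
  classical
  obtain ⟨i, hi⟩ := hsq (-1)
  have hi0 : i ≠ 0 := by
    rintro rfl
    rw [zero_pow two_ne_zero] at hi
    exact one_ne_zero (neg_eq_zero.1 hi.symm)
  have hs0 : s ≠ 0 := by
    rintro rfl
    apply ht0
    rw [← hst]
    ring
  set m := Nat.find hcon with hm
  have hmspec : σ ^ (2 ^ m) = 1 := Nat.find_spec hcon
  have hmin : ∀ k, k < m → σ ^ (2 ^ k) ≠ 1 := fun k hk => Nat.find_min hcon hk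
  have hm1 : 1 ≤ m := by
    by_contra h
    have h0 : m = 0 := by omega
    rw [h0, pow_zero, pow_one] at hmspec
    rw [hmspec] at hσs
    exact neg_ne h2 hs0 hσs.symm
  obtain ⟨k, hk⟩ : ∃ k, m = k + 1 := ⟨m - 1, by omega⟩
  have hτ2 : (σ ^ (2 ^ k)) ^ 2 = 1 := by
    rw [← pow_mul, ← pow_succ, ← hk]
    exact hmspec
  have hτi := invol h2 hsq hi (σ ^ (2 ^ k)) hτ2 (hmin k (by omega))
  have hk0 : k = 0 := by
    by_contra hk1
    obtain ⟨l, hl⟩ : ∃ l, k = l + 1 := ⟨k - 1, by omega⟩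
    have e : σ ^ (2 ^ k) = (σ ^ (2 ^ l)) * (σ ^ (2 ^ l)) := by
      rw [hl, pow_succ, pow_mul, pow_two]
    have h3 : (σ ^ (2 ^ k)) i = i := by
      rw [e, AlgEquiv.mul_apply]
      rcases map_i hi (σ ^ (2 ^ l)) with h | h
      · rw [h, h]
      · rw [h, map_neg, h, neg_neg]
    rw [h3] at hτi
    exact neg_ne h2 hi0 hτi.symm
  rw [hk0, pow_zero, pow_one] at hτ2 hτi
  have hσσ : ∀ y, σ (σ y) = y := by
    intro y
    have h3 : (σ ^ 2) y = (1 : K ≃ₐ[F] K) y := by rw [hτ2]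
    rw [pow_two] at h3
    exact h3
  obtain ⟨u, hu, v, hv, huv⟩ := hNm
  have hfix : ∀ x ∈ Fx (⊤ : Subgroup (K ≃ₐ[F] K)), σ x = x := by
    intro x hx
    exact hx ⟨σ, Subgroup.mem_top σ⟩
  set w := s * i with hw
  have hσw : σ w = w := by rw [hw, map_mul, hσs, hτi, neg_mul_neg]
  have hw2 : w ^ 2 = -t := by rw [hw, mul_pow, hst, hi, mul_neg, mul_one]
  obtain ⟨l, hl⟩ := hsq (u + w * v * i)
  have h3 : (l * σ l) ^ 2 = i ^ 2 := by
    have h4 : (σ l) ^ 2 = u - w * v * i := by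
      rw [← map_pow, hl, map_add, map_mul, map_mul, hfix u hu, hfix v hv, hσw, hτi]
      ring
    rw [mul_pow, hl, h4, hi]
    have h5 : (u + w * v * i) * (u - w * v * i) = u ^ 2 - w ^ 2 * v ^ 2 * i ^ 2 := by ring
    have h6 : u ^ 2 - -t * v ^ 2 * -1 = u ^ 2 - t * v ^ 2 := by ring
    rw [h5, hw2, hi, h6, ← huv]
  have h4 : σ (l * σ l) = l * σ l := by rw [map_mul, hσσ, mul_comm]
  rcases sq_eq_sq_iff_eq_or_eq_neg.1 h3 with h5 | h5
  · rw [h5, hτi] at h4
    exact neg_ne h2 hi0 h4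
  · rw [h5, map_neg, hτi, neg_neg] at h4
    exact neg_ne h2 hi0 h4.symm

end Pool.Agent.P8H56.FP
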