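import Pool.Agent.P8H47.FP.Stm2

/-!
# Project FP, package ZTWO: infinite procyclic pro-2 groups
-/

set_option autoImplicit false

namespace Pool.Agent.P8H56.FP

open Pool.Agent.P8H47.FP Filter Topology Set

lemma exists_extension {G α : Type} [TopologicalSpace G] [T3Space G] (i : α → ℤ_[2])
    (hd : DenseRange i) (f : α → G)
    (hf : ∀ b, ∃ c, Tendsto f (comap i (𝓝 b)) (𝓝 c)) :
    ∃ F : ℤ_[2] → G, Continuous F ∧ ∀ a, F (i a) = f a := by
  let _ : TopologicalSpace α := TopologicalSpace.induced i inferInstance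
  have di : IsDenseInducing i := ⟨⟨rfl⟩, hd⟩
  exact ⟨di.extend f, di.continuous_extend hf, di.extend_eq' hf⟩

section

variable {G : Type} [Group G] [TopologicalSpace G] [IsTopologicalGroup G] [CompactSpace G]
  [T2Space G] [TotallyDisconnectedSpace G]

lemma exists_limit (σ : G)
    (hσ : ∀ N : Subgroup G, N.Normal → IsOpen (N : Set G) → ∃ k : ℕ, σ ^ (2 ^ k) ∈ N)
    (b : ℤ_[2]) : ∃ c, Tendsto (fun n : ℤ => σ ^ n) (comap (Int.cast : ℤ → ℤ_[2]) (𝓝 b)) (𝓝 c) := by
  have hne : (comap (Int.cast : ℤ → ℤ_[2]) (𝓝 b)).NeBot := by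
    rw [comap_neBot_iff]
    intro t ht
    obtain ⟨_, h1, n, rfl⟩ := mem_closure_iff_nhds.1 (PadicInt.denseRange_intCast (p := 2) b) t ht
    exact ⟨n, h1⟩
  obtain ⟨c, hc⟩ := exists_clusterPt_of_compactSpace
    (map (fun n : ℤ => σ ^ n) (comap (Int.cast : ℤ → ℤ_[2]) (𝓝 b)))
  refine ⟨c, fun U hU => ?_⟩
  have hU1 : (fun g => c * g) ⁻¹' U ∈ 𝓝 (1 : G) := by
    apply (continuous_const_mul c).continuousAt.preimage_mem_nhds
    rwa [mul_one]
  obtain ⟨W, hWU, hWo, hW1⟩ := mem_nhds_iff.1 hU1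
  obtain ⟨N, hN⟩ := ProfiniteGrp.exist_openNormalSubgroup_sub_open_nhds_of_one hWo hW1
  obtain ⟨k, hk⟩ := hσ N.toSubgroup N.isNormal' N.isOpen'
  set T : Set ℤ := (Int.cast : ℤ → ℤ_[2]) ⁻¹' Metric.closedBall b ((2 : ℝ) ^ (-(k : ℤ))) with hT
  have hTmem : T ∈ comap (Int.cast : ℤ → ℤ_[2]) (𝓝 b) :=
    preimage_mem_comap (Metric.closedBall_mem_nhds b (by positivity))
  have hdiff : ∀ n ∈ T, ∀ m ∈ T, σ ^ (n - m) ∈ N.toSubgroup := by
    intro n hn m hm
    have h1 : ‖((n - m : ℤ) : ℤ_[2])‖ ≤ ((2 : ℕ) : ℝ) ^ (-(k : ℤ)) := by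
      have h2 : ‖(n : ℤ_[2]) - b‖ ≤ (2 : ℝ) ^ (-(k : ℤ)) := by
        rw [← dist_eq_norm]
        exact hn
      have h3 : ‖b - (m : ℤ_[2])‖ ≤ (2 : ℝ) ^ (-(k : ℤ)) := by
        rw [← dist_eq_norm, dist_comm]
        exact hm
      have h4 : ((n - m : ℤ) : ℤ_[2]) = ((n : ℤ_[2]) - b) + (b - (m : ℤ_[2])) := by
        push_cast
        ring
      rw [h4]
      refine (PadicInt.nonarchimedean _ _).trans (max_le ?_ ?_)
      · exact_mod_cast h2
      · exact_mod_cast h3
    obtain ⟨d, hd⟩ := PadicInt.norm_int_le_pow_iff_dvd.1 h1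
    have h5 : σ ^ (n - m) = (σ ^ (2 ^ k)) ^ d := by
      rw [hd, zpow_mul]
      congr 1
      exact_mod_cast zpow_natCast σ (2 ^ k)
    rw [h5]
    exact Subgroup.zpow_mem _ hk d
  -- the cluster point
  have hcN : (fun g => c⁻¹ * g) ⁻¹' (N : Set G) ∈ 𝓝 c := by
    apply (continuous_const_mul c⁻¹).continuousAt.preimage_mem_nhds
    rw [inv_mul_cancel]
    exact N.isOpen'.mem_nhds (one_mem N.toSubgroup)
  obtain ⟨_, h1, m, hm, rfl⟩ := clusterPt_iff_nonempty.1 hc hcN (image_mem_map hTmem)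
  refine mem_map.2 (mem_of_superset hTmem fun n hn => ?_)
  have h2 : c⁻¹ * σ ^ n ∈ N.toSubgroup := by
    have h3 : c⁻¹ * σ ^ n = (c⁻¹ * σ ^ m) * σ ^ (n - m) := by
      rw [mul_assoc, ← zpow_add]
      congr 2
      ring
    rw [h3]
    exact mul_mem h1 (hdiff n hn m hm)
  have h3 : c * (c⁻¹ * σ ^ n) ∈ U := hWU (hN h2)
  rwa [mul_inv_cancel_left] at h3

end

theorem ztwo : S_ZTWO := by
  intro G _ _ _ _ _ _ σ hσ hinf
  classical
  obtain ⟨F, hF, hFn⟩ := exists_extension (Int.cast : ℤ → ℤ_[2])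
    (PadicInt.denseRange_intCast (p := 2)) (fun n : ℤ => σ ^ n) (exists_limit σ hσ)
  have hadd : ∀ a b, F (a + b) = F a * F b := by
    intro a b
    refine (PadicInt.denseRange_intCast (p := 2)).induction_on₂
      (p := fun a b => F (a + b) = F a * F b) ?_ ?_ a b
    · exact isClosed_eq (hF.comp (continuous_fst.add continuous_snd))
        ((hF.comp continuous_fst).mul (hF.comp continuous_snd))
    · intro m n
      rw [← Int.cast_add, hFn, hFn, hFn]
      exact zpow_add σ m n
  have h0 : F 0 = 1 := by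
    have := hFn 0
    rw [Int.cast_zero] at this
    rw [this]
    exact zpow_zero σ
  set C := (Subgroup.zpowers σ).topologicalClosure with hC
  have hmem : ∀ a, F a ∈ C := by
    intro a
    refine (PadicInt.denseRange_intCast (p := 2)).induction_on (p := fun a => F a ∈ C) a ?_ ?_
    · exact (Subgroup.isClosed_topologicalClosure _).preimage hF
    · intro n
      rw [hFn]
      exact Subgroup.le_topologicalClosure _ (Subgroup.zpow_mem_zpowers σ n)
  have hsurj : ∀ g ∈ C, ∃ a, F a = g := by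
    intro g hg
    have h1 : closure ((Subgroup.zpowers σ : Subgroup G) : Set G) ⊆ range F := by
      refine closure_minimal ?_ (isCompact_range hF).isClosed
      rintro _ ⟨n, rfl⟩
      exact ⟨n, hFn n⟩
    exact h1 hg
  have hinj : ∀ a, F a = 1 → a = 0 := by
    intro a ha
    by_contra hne
    have h1 : ∀ b, F (a * b) = 1 := by
      intro b
      refine (PadicInt.denseRange_intCast (p := 2)).induction_on (p := fun b => F (a * b) = 1) b
        ?_ ?_
      · exact isClosed_eq (hF.comp (continuous_const.mul continuous_id)) continuous_const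
      · intro n
        have h2 : ∀ m : ℕ, F (a * (m : ℤ_[2])) = 1 := by
          intro m
          induction m with
          | zero => rw [Nat.cast_zero, mul_zero, h0]
          | succ m ih => rw [Nat.cast_succ, mul_add, mul_one, hadd, ih, ha, mul_one]
        rcases Int.eq_nat_or_neg n with ⟨m, rfl | rfl⟩
        · rw [Int.cast_natCast]
          exact h2 m
        · have h3 := hadd (a * ((-(m : ℤ) : ℤ) : ℤ_[2])) (a * (m : ℤ_[2]))
          have h4 : a * ((-(m : ℤ) : ℤ) : ℤ_[2]) + a * (m : ℤ_[2]) = 0 := by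
            push_cast
            ring
          rw [h4, h0, h2, mul_one] at h3
          exact h3.symm
    have h2 := PadicInt.unitCoeff_spec hne
    set u := PadicInt.unitCoeff hne with hu
    have h3 : a * ((u⁻¹ : ℤ_[2]ˣ) : ℤ_[2]) = (((2 ^ a.valuation : ℕ) : ℤ) : ℤ_[2]) := by
      conv_lhs => rw [h2]
      rw [mul_comm (u : ℤ_[2]), mul_assoc, Units.mul_inv, mul_one]
      push_cast
      rfl
    have h4 := h1 ((u⁻¹ : ℤ_[2]ˣ) : ℤ_[2])
    rw [h3, hFn] at h4
    rw [zpow_natCast] at h4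
    exact hinf _ h4
  let e0 : Multiplicative ℤ_[2] →* C :=
    { toFun := fun a => ⟨F a.toAdd, hmem _⟩
      map_one' := Subtype.ext h0
      map_mul' := fun a b => Subtype.ext (hadd _ _) }
  have hbij : Function.Bijective e0 := by
    constructor
    · rw [injective_iff_map_eq_one]
      intro a ha
      exact hinj a.toAdd (congrArg Subtype.val ha)
    · rintro ⟨g, hg⟩
      obtain ⟨a, ha⟩ := hsurj g hg
      exact ⟨Multiplicative.ofAdd a, Subtype.ext ha⟩
  let e := MulEquiv.ofBijective e0 hbij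
  have hcont : Continuous e := by
    refine Continuous.subtype_mk ?_ _
    exact hF.comp continuous_toAdd
  have hcont' : Continuous e.symm :=
    (Continuous.homeoOfEquivCompactToT2 (f := e.toEquiv) hcont).symm.continuous
  exact ⟨(ContinuousMulEquiv.mk e hcont hcont').symm⟩

end Pool.Agent.P8H56.FP
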