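import Pool.Agent.P8H47.FP.Stm5
import Pool.Agent.P8H47.EC.A

/-!
# Project FP, package ISO: orderings which contain no minimal subgroup
-/

set_option autoImplicit false

namespace Pool.Agent.P8H56.FP

open Pool.Agent.P8H47.FP
open Pool.Agent.Y920.EP (pwG IsMaxP)
open Pool.Agent.P8H47.EC (Cp MinCp finite_between)
open Pool.Agent.P8H47.EC2 (Dat UU)

variable {F : Type} [Field F]

lemma exists_min' (hfin : (pwG F 2).index ≠ 0) {T : Subgroup Fˣ} (hT : pwG F 2 ≤ T)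
    (hO : ∃ O : ValuationSubring F, Cp 2 T O) : ∃ T' : Subgroup Fˣ, MinCp 2 T' ∧ T' ≤ T := by
  have h0 : {T' : Subgroup Fˣ | pwG F 2 ≤ T' ∧ T' ≤ ⊤}.Finite := finite_between (by
    rw [Subgroup.relIndex_top_right]
    exact hfin)
  have hfinS : {T' : Subgroup Fˣ | (pwG F 2 ≤ T' ∧ T' ≤ T) ∧
      ∃ O : ValuationSubring F, Cp 2 T' O}.Finite :=
    h0.subset (fun T' h => ⟨h.1.1, le_top⟩)
  obtain ⟨T', h1, hmin⟩ := hfinS.exists_minimal ⟨T, ⟨⟨hT, le_rfl⟩, hO⟩⟩
  obtain ⟨⟨h1, h2⟩, h3⟩ := h1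
  refine ⟨T', ⟨h1, h3, fun T'' h4 h5 h6 => ?_⟩, h2⟩
  exact absurd (hmin ⟨⟨h4, h5.le.trans h2⟩, h6⟩ h5.le) (not_le_of_gt h5)

lemma mem_Pos {e : OrdEmb F} {x : Fˣ} : x ∈ Pos e ↔ 0 < e.f x := Iff.rfl

lemma pwG_le_Pos (e : OrdEmb F) : pwG F 2 ≤ Pos e := by
  rintro _ ⟨y, rfl⟩
  rw [mem_Pos]
  change 0 < e.f ((y ^ 2 : Fˣ) : F)
  rw [Units.val_pow_eq_pow_val, map_pow]
  have h : e.f (y : F) ≠ 0 := (map_ne_zero e.f).2 y.ne_zero
  positivity

lemma neg_or (e : OrdEmb F) (x : Fˣ) (h : ¬ 0 < e.f (x : F)) : e.f (x : F) < 0 :=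
  lt_of_le_of_ne (not_lt.1 h) ((map_ne_zero e.f).2 x.ne_zero)

lemma one_add_pos (e : OrdEmb F) {x : F} (h : x⁻¹ ∉ Arch e) : 0 < e.f (1 + x) := by
  have h1 : ¬ |e.f x⁻¹| ≤ (1 : ℕ) := fun h' => h ⟨1, h'⟩
  rw [map_inv₀, abs_inv, Nat.cast_one, not_le] at h1
  have h2 : |e.f x| < 1 := by
    by_contra h'
    exact absurd (inv_le_one_of_one_le₀ (not_lt.1 h')) (not_le.2 h1)
  have h3 := (abs_lt.1 h2).1
  rw [map_add, map_one]
  linarith

lemma half_mem (e : OrdEmb F) : ((2 : ℕ) : F)⁻¹ ∈ Arch e := by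
  refine ⟨1, ?_⟩
  rw [map_inv₀, map_natCast, abs_inv, Nat.cast_one, Nat.abs_cast]
  apply inv_le_one_of_one_le₀
  norm_num

/-- a subgroup of the positive elements is not compatible with a valuation ring -/
lemma unit_sup (hfin : (pwG F 2).index ≠ 0) (e : OrdEmb F)
    (hmin : ∀ T : Subgroup Fˣ, MinCp 2 T → ¬ T ≤ Pos e) (W : ValuationSubring F) (T : Subgroup Fˣ)
    (h1 : pwG F 2 ≤ T) (h2 : T ≤ Pos e) (h3 : ((2 : ℕ) : F)⁻¹ ∈ W)
    (h4 : ∀ x : F, x ∈ W → x⁻¹ ∉ W → ∃ t ∈ T, (t : F) = 1 + x) : W.unitGroup ⊔ T = ⊤ := by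
  by_contra h
  obtain ⟨T', h5, h6⟩ := exists_min' hfin h1 ⟨W, ⟨h3, h4, h⟩⟩
  exact hmin T' h5 (h6.trans h2)

lemma mem_unit {W : ValuationSubring F} {x : Fˣ} (h : x ∈ W.unitGroup) :
    (x : F) ∈ W ∧ (x : F)⁻¹ ∈ W := by
  constructor
  · exact (W.valuation_le_one_iff _).1 ((W.mem_unitGroup_iff x).1 h).le
  · rw [← W.valuation_le_one_iff, map_inv₀, (W.mem_unitGroup_iff x).1 h, inv_one]

/-- the ring of the products -/
def Wp (A B : ValuationSubring F) : ValuationSubring F where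
  carrier := {x | ∃ a ∈ A, ∃ b ∈ B, x = a * b}
  mul_mem' := by
    rintro x y ⟨a, ha, b, hb, rfl⟩ ⟨c, hc, d, hd, rfl⟩
    exact ⟨a * c, A.mul_mem _ _ ha hc, b * d, B.mul_mem _ _ hb hd, by ring⟩
  one_mem' := ⟨1, A.one_mem, 1, B.one_mem, by ring⟩
  add_mem' := by
    have key : ∀ t s : F, t ∈ A → s ∈ B → ∃ a ∈ A, ∃ b ∈ B, s + t = a * b := by
      intro t s ht hs
      rcases B.mem_or_inv_mem t with h | h
      · exact ⟨1, A.one_mem, s + t, B.add_mem _ _ hs h, by ring⟩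
      · by_cases h0 : t = 0
        · exact ⟨1, A.one_mem, s, hs, by rw [h0]; ring⟩
        · exact ⟨t, ht, s * t⁻¹ + 1, B.add_mem _ _ (B.mul_mem _ _ hs h) B.one_mem, by
            field_simp⟩
    have key1 : ∀ t s : F, t ∈ A → s ∈ B → ∃ a ∈ A, ∃ b ∈ B, 1 + t * s = a * b := by
      intro t s ht hs
      rcases B.mem_or_inv_mem t with h | h
      · exact ⟨1, A.one_mem, 1 + t * s, B.add_mem _ _ B.one_mem (B.mul_mem _ _ h hs), by ring⟩
      · by_cases h0 : t = 0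
        · exact ⟨1, A.one_mem, 1, B.one_mem, by rw [h0]; ring⟩
        · exact ⟨t, ht, t⁻¹ + s, B.add_mem _ _ h hs, by field_simp⟩
    -- b + t d
    have key2 : ∀ t b d : F, t ∈ A → b ∈ B → d ∈ B → ∃ a ∈ A, ∃ c ∈ B, b + t * d = a * c := by
      intro t b d ht hb hd
      by_cases hb0 : b = 0
      · exact ⟨t, ht, d, hd, by rw [hb0]; ring⟩
      by_cases hd0 : d = 0
      · exact ⟨1, A.one_mem, b, hb, by rw [hd0]; ring⟩
      rcases B.mem_or_inv_mem (b / d) with h | h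
      · obtain ⟨a, ha, c, hc, e⟩ := key t (b / d) ht h
        refine ⟨a, ha, c * d, B.mul_mem _ _ hc hd, ?_⟩
        rw [← mul_assoc, ← e]
        field_simp
      · rw [inv_div] at h
        obtain ⟨a, ha, c, hc, e⟩ := key1 t (d / b) ht h
        refine ⟨a, ha, c * b, B.mul_mem _ _ hc hb, ?_⟩
        rw [← mul_assoc, ← e]
        field_simp
    rintro x y ⟨a, ha, b, hb, rfl⟩ ⟨c, hc, d, hd, rfl⟩
    by_cases ha0 : a = 0
    · exact ⟨c, hc, d, hd, by rw [ha0]; ring⟩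
    by_cases hc0 : c = 0
    · exact ⟨a, ha, b, hb, by rw [hc0]; ring⟩
    rcases A.mem_or_inv_mem (c / a) with h | h
    · obtain ⟨u, hu, v, hv, e⟩ := key2 (c / a) b d h hb hd
      refine ⟨a * u, A.mul_mem _ _ ha hu, v, hv, ?_⟩
      rw [mul_assoc, ← e]
      field_simp
    · rw [inv_div] at h
      obtain ⟨u, hu, v, hv, e⟩ := key2 (a / c) d b h hd hb
      refine ⟨c * u, A.mul_mem _ _ hc hu, v, hv, ?_⟩
      rw [mul_assoc, ← e]
      field_simp
      ring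
  zero_mem' := ⟨0, A.zero_mem, 0, B.zero_mem, by ring⟩
  neg_mem' := by
    rintro x ⟨a, ha, b, hb, rfl⟩
    exact ⟨-a, A.neg_mem _ ha, b, hb, by ring⟩
  mem_or_inv_mem' := by
    intro x
    rcases A.mem_or_inv_mem x with h | h
    · exact Or.inl ⟨x, h, 1, B.one_mem, by ring⟩
    · exact Or.inr ⟨x⁻¹, h, 1, B.one_mem, by ring⟩

lemma left_le (A B : ValuationSubring F) {x : F} (h : x ∈ A) : x ∈ Wp A B :=
  ⟨x, h, 1, B.one_mem, by ring⟩

lemma right_le (A B : ValuationSubring F) {x : F} (h : x ∈ B) : x ∈ Wp A B :=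
  ⟨1, A.one_mem, x, h, by ring⟩

lemma unit_Wp {A B : ValuationSubring F} {x : Fˣ} (h : x ∈ (Wp A B).unitGroup) : x ∈ UU A B := by
  obtain ⟨h1, h2⟩ := mem_unit h
  refine ⟨h1, ?_⟩
  rw [Units.val_inv_eq_inv_val]
  exact h2

lemma neg_UU {A B : ValuationSubring F} {x : Fˣ} (h : x ∈ UU A B) : -x ∈ UU A B := by
  obtain ⟨⟨a, ha, b, hb, e⟩, c, hc, d, hd, e'⟩ := h
  refine ⟨⟨-a, A.neg_mem _ ha, b, hb, ?_⟩, -c, A.neg_mem _ hc, d, hd, ?_⟩
  · rw [Units.val_neg, e]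
    ring
  · rw [inv_neg, Units.val_neg, e']
    ring

/-- the separation of two orderings -/
lemma sep_of (hfin : (pwG F 2).index ≠ 0) (e : OrdEmb F)
    (hmin : ∀ T : Subgroup Fˣ, MinCp 2 T → ¬ T ≤ Pos e) (e' : OrdEmb F) (hne : Pos e ≠ Pos e') :
    Sep e e' := by
  have htop := unit_sup hfin e hmin (Wp (Arch e) (Arch e')) (Pos e ⊓ Pos e')
    (le_inf (pwG_le_Pos e) (pwG_le_Pos e')) inf_le_left (left_le _ _ (half_mem e)) (by
      intro x _ hx'
      have h1 := one_add_pos e (x := x) fun h => hx' (left_le _ _ h)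
      have h2 := one_add_pos e' (x := x) fun h => hx' (right_le _ _ h)
      have h3 : 1 + x ≠ 0 := by
        intro h
        rw [h, map_zero] at h1
        exact lt_irrefl _ h1
      exact ⟨Units.mk0 _ h3, ⟨h1, h2⟩, rfl⟩)
  have key : ∃ x : Fˣ, 0 < e.f x ∧ e'.f x < 0 := by
    by_contra hc
    push Not at hc
    apply hne
    apply le_antisymm
    · intro x hx
      exact lt_of_le_of_ne (hc x hx) ((map_ne_zero e'.f).2 x.ne_zero).symm
    · intro x hx
      rw [mem_Pos] at hx ⊢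
      by_contra h
      have h1 := neg_or e x h
      have h2 := hc (-x) (by rw [Units.val_neg, map_neg]; linarith)
      rw [Units.val_neg, map_neg] at h2
      linarith
  obtain ⟨x, hx, hx'⟩ := key
  have hmem : x ∈ (Wp (Arch e) (Arch e')).unitGroup ⊔ (Pos e ⊓ Pos e') := by
    rw [htop]
    trivial
  obtain ⟨u, hu, t, ⟨ht, ht'⟩, rfl⟩ := Subgroup.mem_sup.1 hmem
  refine ⟨u, unit_Wp hu, ?_, ?_⟩
  · rw [Units.val_mul, map_mul] at hx
    exact (pos_iff_pos_of_mul_pos hx).2 ht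
  · rw [Units.val_mul, map_mul] at hx'
    have ht2 : 0 < e'.f t := ht'
    by_contra h
    exact absurd (mul_nonneg (not_lt.1 h) ht2.le) (not_le.2 hx')

/-- approximation of the inverse of a square by rational numbers -/
lemma exists_rat {R : Type} [Field R] [LinearOrder R] [IsStrictOrderedRing R] (v : R) (n N : ℕ)
    (hn : 1 ≤ n) (h1 : v ≤ n) (h2 : 1 ≤ v * n) :
    ∃ k B : ℕ, k ≠ 0 ∧ B ≠ 0 ∧ |v * ((k : R) / (B : R)) ^ 2 - 1| * (N : R) ≤ 1 := by
  have hn' : (1 : R) ≤ n := by exact_mod_cast hn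
  have hv : 0 < v := by
    by_contra h
    have := mul_nonpos_of_nonpos_of_nonneg (not_lt.1 h) (Nat.cast_nonneg (α := R) n)
    linarith
  set B : ℕ := 3 * n ^ 2 * N + n with hB
  have hBn : n ≤ B := by omega
  have hB0 : B ≠ 0 := by omega
  have hB1 : 1 ≤ B := by omega
  classical
  -- the largest k
  have hbound : ∀ k : ℕ, (k : R) ^ 2 * v ≤ (B : R) ^ 2 → k ≤ n * B := by
    intro k hk
    have h3 : (k : R) ^ 2 ≤ ((n * B : ℕ) : R) ^ 2 := by
      push_cast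
      have h4 : (k : R) ^ 2 ≤ (k : R) ^ 2 * (v * n) := le_mul_of_one_le_right (by positivity) h2
      have h5 : (k : R) ^ 2 * (v * n) ≤ (B : R) ^ 2 * n := by
        rw [← mul_assoc]
        exact mul_le_mul_of_nonneg_right hk (by positivity)
      have h6 : (B : R) ^ 2 * n ≤ (B : R) ^ 2 * (n * n) :=
        mul_le_mul_of_nonneg_left (le_mul_of_one_le_right (by positivity) hn') (by positivity)
      nlinarith
    have h8 : (k ^ 2 : ℕ) ≤ (n * B) ^ 2 := by exact_mod_cast h3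
    exact (Nat.pow_le_pow_iff_left (by norm_num)).1 h8
  have hP0 : (fun k : ℕ => (k : R) ^ 2 * v ≤ (B : R) ^ 2) 1 := by
    simp only [Nat.cast_one, one_pow, one_mul]
    have h3 : (n : R) ≤ B := by exact_mod_cast hBn
    have h4 : (1 : R) ≤ B := by exact_mod_cast hB1
    nlinarith
  have h1B : 1 ≤ n * B := Nat.one_le_iff_ne_zero.2 (by positivity)
  set k := Nat.findGreatest (fun k : ℕ => (k : R) ^ 2 * v ≤ (B : R) ^ 2) (n * B) with hk
  have hk1 : (k : R) ^ 2 * v ≤ (B : R) ^ 2 :=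
    Nat.findGreatest_spec (P := fun k : ℕ => (k : R) ^ 2 * v ≤ (B : R) ^ 2) h1B hP0
  have hk2 : 1 ≤ k := Nat.le_findGreatest h1B hP0
  have hk3 : (B : R) ^ 2 < ((k + 1 : ℕ) : R) ^ 2 * v := by
    by_contra h
    have h3 := not_lt.1 h
    have h4 := hbound _ h3
    have h5 := Nat.le_findGreatest (P := fun k : ℕ => (k : R) ^ 2 * v ≤ (B : R) ^ 2) h4 h3
    omega
  have hk4 : k ≤ n * B := hbound _ hk1
  refine ⟨k, B, by omega, hB0, ?_⟩
  have hBR : (0 : R) < B := by exact_mod_cast (by omega : 0 < B)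
  have e1 : v * ((k : R) / B) ^ 2 - 1 = -(((B : R) ^ 2 - (k : R) ^ 2 * v) / (B : R) ^ 2) := by
    field_simp
    ring
  rw [e1, abs_neg, abs_of_nonneg (div_nonneg (by linarith) (by positivity)), div_mul_eq_mul_div,
    div_le_one (by positivity)]
  have h3 : (B : R) ^ 2 - (k : R) ^ 2 * v ≤ 3 * n ^ 2 * B := by
    push_cast at hk3
    have h4 : (k : R) ≤ n * B := by exact_mod_cast hk4
    have h5 : (1 : R) ≤ n * B := by exact_mod_cast h1B
    have h6 : (B : R) ^ 2 - (k : R) ^ 2 * v ≤ (2 * k + 1) * v := by nlinarith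
    have h7 : (2 * (k : R) + 1) * v ≤ (3 * (n * B)) * n := by
      apply mul_le_mul _ h1 hv.le (by positivity)
      linarith
    calc _ ≤ _ := h6
      _ ≤ _ := h7
      _ = _ := by ring
  have h4 : (3 * (n : R) ^ 2) * N ≤ B := by
    have h5 : 3 * n ^ 2 * N ≤ B := by omega
    exact_mod_cast h5
  calc ((B : R) ^ 2 - (k : R) ^ 2 * v) * N ≤ (3 * n ^ 2 * B) * N :=
        mul_le_mul_of_nonneg_right h3 (Nat.cast_nonneg _)
    _ = (3 * (n : R) ^ 2 * N) * B := by ring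
    _ ≤ B * B := mul_le_mul_of_nonneg_right h4 hBR.le
    _ = (B : R) ^ 2 := by ring

theorem iso : S_ISO := by
  intro F _ hfin e hmin
  refine ⟨?_, fun e' _ hne => sep_of hfin e hmin e' hne⟩
  intro g hg N
  have hchar : CharZero F := by
    constructor
    intro a b h
    have h1 : e.f (a : F) = e.f (b : F) := by rw [h]
    rw [map_natCast, map_natCast] at h1
    exact_mod_cast h1
  set A := Arch e with hA
  -- the principal units
  have hM : ∀ x : Fˣ, x ∈ A.principalUnitGroup → ((x : F) - 1)⁻¹ ∉ A ∨ (x : F) = 1 := by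
    intro x hx
    rw [ValuationSubring.mem_principalUnitGroup_iff] at hx
    by_cases h : (x : F) = 1
    · exact Or.inr h
    · left
      intro h'
      rw [← A.valuation_le_one_iff, map_inv₀] at h'
      have h0 : A.valuation ((x : F) - 1) ≠ 0 := (Valuation.ne_zero_iff _).2 (sub_ne_zero.2 h)
      exact absurd ((one_lt_inv₀ (zero_lt_iff.2 h0)).2 hx) (not_lt.2 h')
  have hMle : A.principalUnitGroup ≤ Pos e := by
    intro x hx
    rw [mem_Pos]
    rcases hM x hx with h | h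
    · have h1 := one_add_pos e h
      rwa [add_sub_cancel] at h1
    · rw [h, map_one]
      exact one_pos
  have htop := unit_sup hfin e hmin A (A.principalUnitGroup ⊔ pwG F 2) le_sup_right
    (sup_le hMle (pwG_le_Pos e)) (half_mem e) (by
      intro x hx hx'
      have h1 := one_add_pos e hx'
      have h3 : 1 + x ≠ 0 := by
        intro h
        rw [h, map_zero] at h1
        exact lt_irrefl _ h1
      refine ⟨Units.mk0 _ h3, Subgroup.mem_sup_left ?_, rfl⟩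
      rw [ValuationSubring.mem_principalUnitGroup_iff, Units.val_mk0, add_sub_cancel_left]
      have h0 : x ≠ 0 := by
        rintro rfl
        rw [inv_zero] at hx'
        exact hx' A.zero_mem
      by_contra h
      apply hx'
      rw [← A.valuation_le_one_iff, map_inv₀]
      exact inv_le_one_of_one_le₀ (not_lt.1 h))
  have htop2 : A.unitGroup ⊔ pwG F 2 = ⊤ := by
    rw [← htop, ← sup_assoc, sup_eq_left.2 (ValuationSubring.principal_units_le_units A)]
  have hmem : g ∈ A.unitGroup ⊔ pwG F 2 := by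
    rw [htop2]
    trivial
  obtain ⟨u, hu, _, ⟨s, rfl⟩, rfl⟩ := Subgroup.mem_sup.1 hmem
  obtain ⟨⟨n, hn⟩, ⟨m, hm⟩⟩ := mem_unit hu
  change 0 < e.f ((u * s ^ 2 : Fˣ) : F) at hg
  have hs : 0 < e.f ((s ^ 2 : Fˣ) : F) := pwG_le_Pos e ⟨s, rfl⟩
  have hupos : 0 < e.f (u : F) := by
    rw [Units.val_mul, map_mul] at hg
    exact (pos_iff_pos_of_mul_pos hg).2 hs
  rw [map_inv₀, abs_inv, abs_of_pos hupos] at hm
  rw [abs_of_pos hupos] at hn
  set K := max 1 (max n m) with hK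
  have hK1 : 1 ≤ K := le_max_left _ _
  have hK2 : e.f (u : F) ≤ (K : ℕ) := hn.trans (by
    exact_mod_cast (le_max_left n m).trans (le_max_right 1 _))
  have hK3 : 1 ≤ e.f (u : F) * (K : ℕ) := by
    have h1 : (e.f (u : F))⁻¹ ≤ (K : ℕ) := hm.trans (by
      exact_mod_cast (le_max_right n m).trans (le_max_right 1 _))
    calc (1 : e.R) = e.f (u : F) * (e.f (u : F))⁻¹ := (mul_inv_cancel₀ hupos.ne').symm
      _ ≤ _ := mul_le_mul_of_nonneg_left h1 hupos.le
  obtain ⟨k, B, hk, hB, h⟩ := exists_rat (e.f (u : F)) K N hK1 hK2 hK3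
  have hkF : (k : F) ≠ 0 := by exact_mod_cast hk
  have hBF : (B : F) ≠ 0 := by exact_mod_cast hB
  refine ⟨s⁻¹ * (Units.mk0 (k : F) hkF / Units.mk0 (B : F) hBF), ?_⟩
  have e1 : ((powMonoidHom 2 s : Fˣ)) = s ^ 2 := rfl
  have e2 : (u * (powMonoidHom 2) s * (s⁻¹ * (Units.mk0 (k : F) hkF / Units.mk0 (B : F) hBF)) ^ 2 : Fˣ) =
      u * (Units.mk0 (k : F) hkF / Units.mk0 (B : F) hBF) ^ 2 := by
    rw [e1, mul_pow, inv_pow]
    rw [mul_assoc, mul_inv_cancel_left]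
  rw [e2, Units.val_mul, Units.val_pow_eq_pow_val, Units.val_div_eq_div_val, Units.val_mk0,
    Units.val_mk0, map_mul, map_pow, map_div₀, map_natCast, map_natCast]
  exact h

end Pool.Agent.P8H56.FP
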